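import Pool.Agent.Lib.MP_1bbd88_ag.Len

/-! A lower bound for the colength of `(f) + (X_i ^ q)`, `f` a quadratic form with `f ^ q ∈ (X_i ^ q)`: the number of
monomials with exponents `< q` whose degree lies in two consecutive residue classes modulo `2 q`. -/

set_option autoImplicit false

namespace Pool.Agent.Lib.MP_1bbd88_ag

open Module

section

variable {k : Type*} [Field k] {N : ℕ}

/-- homogeneous power series of degree `d` -/
def Hom (d : ℕ) (f : MvPowerSeries (Fin N) k) : Prop :=
  ∀ α : Fin N →₀ ℕ, MvPowerSeries.coeff α f ≠ 0 → ∑ i, α i = d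

theorem Hom.mul {a b : ℕ} {f g : MvPowerSeries (Fin N) k} (hf : Hom a f) (hg : Hom b g) : Hom (a + b) (f * g) := by
  classical
  intro α hα
  rw [MvPowerSeries.coeff_mul] at hα
  obtain ⟨x, hx, hne⟩ := Finset.exists_ne_zero_of_sum_ne_zero hα
  have h1 := hf x.1 (left_ne_zero_of_mul hne)
  have h2 := hg x.2 (right_ne_zero_of_mul hne)
  have h3 : x.1 + x.2 = α := Finset.HasAntidiagonal.mem_antidiagonal.mp hx
  rw [← h3, ← h1, ← h2, ← Finset.sum_add_distrib]
  rfl

theorem Hom.one : Hom 0 (1 : MvPowerSeries (Fin N) k) := by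
  classical
  intro α hα
  rw [MvPowerSeries.coeff_one] at hα
  have : α = 0 := by
    by_contra h
    exact hα (if_neg h)
  rw [this]
  simp

theorem Hom.pow {a : ℕ} {f : MvPowerSeries (Fin N) k} (hf : Hom a f) (i : ℕ) : Hom (i * a) (f ^ i) := by
  induction i with
  | zero =>
    rw [pow_zero, Nat.zero_mul]
    exact Hom.one
  | succ i ih =>
    rw [pow_succ, Nat.succ_mul]
    exact ih.mul hf

/-- the monomial with exponents `v` -/
noncomputable def mon (k : Type*) [Field k] {N q : ℕ} (v : Fin N → Fin q) : MvPowerSeries (Fin N) k :=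
  MvPowerSeries.monomial (Finsupp.equivFunOnFinite.symm fun i => (v i : ℕ)) 1

theorem mon_hom {q : ℕ} (v : Fin N → Fin q) : Hom (∑ i, (v i : ℕ)) (mon k v) := by
  classical
  intro α hα
  rw [mon, MvPowerSeries.coeff_monomial] at hα
  have : α = Finsupp.equivFunOnFinite.symm fun i => (v i : ℕ) := by
    by_contra h
    exact hα (if_neg h)
  rw [this]
  rfl

theorem coefL_mon {q : ℕ} (v w : Fin N → Fin q) : coefL k N q (mon k v) w = if w = v then 1 else 0 := by
  classical
  change MvPowerSeries.coeff (Finsupp.equivFunOnFinite.symm fun i => (w i : ℕ)) (mon k v) = _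
  rw [mon, MvPowerSeries.coeff_monomial]
  by_cases h : w = v
  · rw [if_pos h, if_pos (by rw [h])]
  · rw [if_neg h, if_neg]
    intro h2
    apply h
    funext i
    have h3 := DFunLike.congr_fun h2 i
    exact Fin.ext h3

/-- every series is a combination of the small monomials modulo `(X_i ^ q)` -/
theorem sub_sum_mem {q : ℕ} (x : MvPowerSeries (Fin N) k) :
    x - ∑ v : Fin N → Fin q, coefL k N q x v • mon k v ∈ psI (Fin N) k q := by
  classical
  have h1 : x - ∑ v : Fin N → Fin q, coefL k N q x v • mon k v ∈ LinearMap.ker (coefL k N q) := by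
    rw [LinearMap.mem_ker, map_sub, map_sum]
    funext w
    rw [Pi.sub_apply, Finset.sum_apply, Pi.zero_apply]
    have h2 : ∀ v ∈ (Finset.univ : Finset (Fin N → Fin q)), (coefL k N q (coefL k N q x v • mon k v)) w =
        if w = v then coefL k N q x v else 0 := by
      intro v _
      rw [map_smul, Pi.smul_apply, coefL_mon, smul_eq_mul, mul_ite, mul_one, mul_zero]
    rw [Finset.sum_congr rfl h2, Finset.sum_ite_eq, if_pos (Finset.mem_univ w), sub_self]
  rw [coefL_ker] at h1
  exact h1

/-- monomials with exponents `< q` whose degree is `c` or `c + 1` modulo `2 q` -/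
def cls (N q c : ℕ) : Finset (Fin N → Fin q) :=
  Finset.univ.filter fun v => (∑ i, (v i : ℕ)) % (2 * q) = c % (2 * q) ∨ (∑ i, (v i : ℕ)) % (2 * q) = (c + 1) % (2 * q)

theorem cls_unique {q c D i j : ℕ} (hi : i < q) (hj : j < q)
    (h1 : (D + 2 * i) % (2 * q) = c % (2 * q) ∨ (D + 2 * i) % (2 * q) = (c + 1) % (2 * q))
    (h2 : (D + 2 * j) % (2 * q) = c % (2 * q) ∨ (D + 2 * j) % (2 * q) = (c + 1) % (2 * q)) : i = j := by
  have h2q : 2 ∣ 2 * q := Dvd.intro q rfl
  have key : (D + 2 * i) % (2 * q) = (D + 2 * j) % (2 * q) → i = j := by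
    intro h
    have h3 : Nat.ModEq (2 * q) (2 * i) (2 * j) := Nat.ModEq.add_left_cancel' D h
    have h4 : 2 * i = 2 * j := Nat.ModEq.eq_of_lt_of_lt h3 (by omega) (by omega)
    omega
  have par : ∀ a b : ℕ, a % (2 * q) = b % (2 * q) → a % 2 = b % 2 := by
    intro a b h
    exact Nat.ModEq.of_dvd h2q h
  rcases h1 with h1 | h1 <;> rcases h2 with h2 | h2
  · exact key (h1.trans h2.symm)
  · have a1 := par _ _ h1
    have a2 := par _ _ h2
    omega
  · have a1 := par _ _ h1
    have a2 := par _ _ h2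
    omega
  · exact key (h1.trans h2.symm)

theorem cls_card_le {q : ℕ} (f : MvPowerSeries (Fin N) k) (hf : f ^ q ∈ psI (Fin N) k q) (hh : Hom 2 f) (c : ℕ) :
    (cls N q c).card ≤ finrank k (MvPowerSeries (Fin N) k ⧸ (Ideal.span {f} ⊔ psI (Fin N) k q)) := by
  classical
  obtain ⟨J, hJ⟩ : ∃ J : Ideal (MvPowerSeries (Fin N) k), J = Ideal.span {f} ⊔ psI (Fin N) k q := ⟨_, rfl⟩
  rw [← hJ]
  have hle : psI (Fin N) k q ≤ J := by
    rw [hJ]
    exact le_sup_right
  have hJle : ∀ z ∈ J, z ∈ Ideal.span {f} ⊔ psI (Fin N) k q := by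
    rw [hJ]
    exact fun z hz => hz
  have hfin : FiniteDimensional k (MvPowerSeries (Fin N) k ⧸ J) :=
    Module.Finite.of_surjective (Ideal.Quotient.factorₐ k hle).toLinearMap (Ideal.Quotient.factor_surjective hle)
  let mk : MvPowerSeries (Fin N) k →ₗ[k] (MvPowerSeries (Fin N) k ⧸ J) := (Ideal.Quotient.mkₐ k J).toLinearMap
  have hmk : ∀ x, mk x = Ideal.Quotient.mk J x := fun x => rfl
  -- a basis of the quotient made of monomials
  obtain ⟨B, hB1, hB2, hB3⟩ := exists_linearIndependent k (Set.range fun v : Fin N → Fin q => mk (mon k v))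
  have hspan : Submodule.span k (Set.range fun v : Fin N → Fin q => mk (mon k v)) = ⊤ := by
    rw [eq_top_iff]
    rintro y -
    obtain ⟨x, rfl⟩ := Ideal.Quotient.mk_surjective y
    have h1 := hle (sub_sum_mem (q := q) x)
    have h2 : Ideal.Quotient.mk J x = ∑ v : Fin N → Fin q, coefL k N q x v • mk (mon k v) := by
      rw [← Ideal.Quotient.eq_zero_iff_mem, map_sub, sub_eq_zero] at h1
      rw [h1, ← hmk, map_sum]
      exact Finset.sum_congr rfl fun v _ => by rw [map_smul]
    rw [h2]
    exact Submodule.sum_mem _ fun v _ => Submodule.smul_mem _ _ (Submodule.subset_span ⟨v, rfl⟩)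
  rw [hspan] at hB2
  have hBf : B.Finite := (Set.finite_range _).subset hB1
  have hBfin : Fintype B := hBf.fintype
  have hcard : Fintype.card B ≤ finrank k (MvPowerSeries (Fin N) k ⧸ J) := hB3.fintype_card_le_finrank
  have hpre : ∀ b : B, ∃ v : Fin N → Fin q, mk (mon k v) = b.1 := fun b => hB1 b.2
  choose v hv using hpre
  -- one step
  have step : ∀ x : MvPowerSeries (Fin N) k, ∃ (C : B → k) (y : MvPowerSeries (Fin N) k),
      x - ∑ b, C b • mon k (v b) - f * y ∈ psI (Fin N) k q := by
    intro x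
    have h1 : mk x ∈ Submodule.span k (Set.range (Subtype.val : B → MvPowerSeries (Fin N) k ⧸ J)) := by
      rw [Subtype.range_coe, hB2]
      trivial
    obtain ⟨C, hC⟩ := (Submodule.mem_span_range_iff_exists_fun k).1 h1
    have h2 : x - ∑ b, C b • mon k (v b) ∈ J := by
      rw [← Ideal.Quotient.eq_zero_iff_mem, map_sub, sub_eq_zero, ← hmk, ← hmk, map_sum, ← hC]
      exact Finset.sum_congr rfl fun b _ => by rw [map_smul, hv]
    obtain ⟨y, hy, z, hz, hyz⟩ := Submodule.mem_sup.1 (hJle _ h2)
    obtain ⟨a, ha⟩ := Ideal.mem_span_singleton'.1 hy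
    refine ⟨C, a, ?_⟩
    have h3 : x - ∑ b, C b • mon k (v b) - f * a = z := by
      rw [← hyz, ← ha]
      ring
    rw [h3]
    exact hz
  have iter : ∀ (j : ℕ) (x : MvPowerSeries (Fin N) k), ∃ (C : ℕ → B → k) (y : MvPowerSeries (Fin N) k),
      x - ∑ i ∈ Finset.range j, f ^ i * ∑ b, C i b • mon k (v b) - f ^ j * y ∈ psI (Fin N) k q := by
    intro j x
    induction j with
    | zero =>
      refine ⟨fun _ _ => 0, x, ?_⟩
      rw [Finset.sum_range_zero, sub_zero, pow_zero, one_mul, sub_self]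
      exact Ideal.zero_mem _
    | succ j ih =>
      obtain ⟨C, y, hy⟩ := ih
      obtain ⟨C', y', hy'⟩ := step y
      refine ⟨fun i => if i = j then C' else C i, y', ?_⟩
      have h1 : ∑ i ∈ Finset.range j, f ^ i * ∑ b, (if i = j then C' else C i) b • mon k (v b) =
          ∑ i ∈ Finset.range j, f ^ i * ∑ b, C i b • mon k (v b) := by
        refine Finset.sum_congr rfl fun i hi => ?_
        have hne : i ≠ j := (Finset.mem_range.1 hi).ne
        simp only [if_neg hne]
      rw [Finset.sum_range_succ, h1]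
      simp only [if_pos]
      have h2 : x - (∑ i ∈ Finset.range j, f ^ i * ∑ b, C i b • mon k (v b) + f ^ j * ∑ b, C' b • mon k (v b)) -
          f ^ (j + 1) * y' = (x - ∑ i ∈ Finset.range j, f ^ i * ∑ b, C i b • mon k (v b) - f ^ j * y) +
            f ^ j * (y - ∑ b, C' b • mon k (v b) - f * y') := by ring
      rw [h2]
      exact Ideal.add_mem _ hy (Ideal.mul_mem_left _ _ hy')
  -- the class of a product
  have hcoef : ∀ (i : ℕ) (b : B) (w : Fin N → Fin q), coefL k N q (f ^ i * mon k (v b)) w ≠ 0 →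
      ∑ l, (w l : ℕ) = ∑ l, (v b l : ℕ) + 2 * i := by
    intro i b w hw
    have h1 := ((hh.pow i).mul (mon_hom (k := k) (v b))) (Finsupp.equivFunOnFinite.symm fun l => (w l : ℕ)) hw
    have h2 : ∑ l, (Finsupp.equivFunOnFinite.symm fun l => (w l : ℕ)) l = ∑ l, (w l : ℕ) := rfl
    rw [← h2, h1]
    ring
  have hib : ∀ b : B, ∃ i0 : ℕ, ∀ i < q, i ≠ i0 → ∀ w ∈ cls N q c, coefL k N q (f ^ i * mon k (v b)) w = 0 := by
    intro b
    by_cases h : ∃ i0 < q, ∃ w ∈ cls N q c, coefL k N q (f ^ i0 * mon k (v b)) w ≠ 0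
    · obtain ⟨i0, hi0, w0, hw0, hne0⟩ := h
      refine ⟨i0, fun i hi hii w hw => ?_⟩
      by_contra hne
      have h1 := hcoef i0 b w0 hne0
      have h2 := hcoef i b w hne
      have h3 := (Finset.mem_filter.1 hw0).2
      have h4 := (Finset.mem_filter.1 hw).2
      rw [h1] at h3
      rw [h2] at h4
      exact hii (cls_unique hi hi0 h4 h3)
    · push Not at h
      exact ⟨0, fun i hi _ w hw => h i hi w hw⟩
  choose i0 hi0 using hib
  let W : B → (cls N q c → k) := fun b w => coefL k N q (f ^ i0 b * mon k (v b)) w.1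
  have hWspan : Submodule.span k (Set.range W) = ⊤ := by
    rw [eq_top_iff]
    rintro u -
    obtain ⟨x, hx⟩ := coefL_surj (k := k) (N := N) q fun w => if h : w ∈ cls N q c then u ⟨w, h⟩ else 0
    obtain ⟨C, y, hy⟩ := iter q x
    have h1 : x - ∑ i ∈ Finset.range q, f ^ i * ∑ b, C i b • mon k (v b) ∈ psI (Fin N) k q := by
      have h2 := Ideal.add_mem _ hy (Ideal.mul_mem_right y _ hf)
      rwa [sub_add_cancel] at h2
    have h3 : x - ∑ i ∈ Finset.range q, f ^ i * ∑ b, C i b • mon k (v b) ∈ LinearMap.ker (coefL k N q) := by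
      rw [coefL_ker]
      exact h1
    rw [LinearMap.mem_ker, map_sub, sub_eq_zero, map_sum] at h3
    have h4 : u = ∑ i ∈ Finset.range q, ∑ b, C i b • fun w : cls N q c => coefL k N q (f ^ i * mon k (v b)) w.1 := by
      funext w
      have h5 := congrFun h3 w.1
      have h6 : coefL k N q x w.1 = u w := by
        rw [hx]
        exact dif_pos w.2
      rw [← h6, h5, Finset.sum_apply, Finset.sum_apply]
      refine Finset.sum_congr rfl fun i _ => ?_
      rw [Finset.mul_sum, map_sum, Finset.sum_apply, Finset.sum_apply]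
      refine Finset.sum_congr rfl fun b _ => ?_
      rw [mul_smul_comm, map_smul]
      rfl
    rw [h4]
    refine Submodule.sum_mem _ fun i hi => Submodule.sum_mem _ fun b _ => Submodule.smul_mem _ _ ?_
    by_cases hii : i = i0 b
    · rw [hii]
      exact Submodule.subset_span ⟨b, rfl⟩
    · have h7 : (fun w : cls N q c => coefL k N q (f ^ i * mon k (v b)) w.1) = 0 := by
        funext w
        exact hi0 b i (Finset.mem_range.1 hi) hii w.1 w.2
      rw [h7]
      exact Submodule.zero_mem _
  have h8 := finrank_range_le_card (R := k) W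
  rw [Set.finrank, hWspan, finrank_top, finrank_fintype_fun_eq_card, Fintype.card_coe] at h8
  exact h8.trans hcard

end

end Pool.Agent.Lib.MP_1bbd88_ag
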