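import Pool.Agent.Lib.MP_1bbd88_ag.SI.A

/-! The number of monomials in two residue classes, by roots of unity. -/

set_option autoImplicit false

namespace Pool.Agent.Lib.MP_1bbd88_ag

open Complex Finset
open scoped Real

/-- the normalised Dirichlet kernel -/
noncomputable def HH (q j : ℕ) : ℝ := if j = 0 then q else Real.sin (π * j / 2) / Real.sin (π * j / (2 * q))

theorem exp_sum_dvd {q : ℕ} (hq : 0 < q) (t : ℤ) :
    ∑ j ∈ range (2 * q), cexp (π * j * t / q * I) = if (2 * q : ℤ) ∣ t then (2 * q : ℂ) else 0 := by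
  have hq0 : (q : ℂ) ≠ 0 := by exact_mod_cast hq.ne'
  have h1 : ∀ j : ℕ, cexp (π * j * t / q * I) = cexp (π * t / q * I) ^ j := by
    intro j
    rw [← Complex.exp_nat_mul]
    congr 1
    ring
  rw [Finset.sum_congr rfl fun j _ => h1 j]
  split_ifs with h
  · obtain ⟨s, rfl⟩ := h
    have h2 : cexp (π * ((2 * q * s : ℤ) : ℂ) / q * I) = 1 := by
      rw [Complex.exp_eq_one_iff]
      refine ⟨s, ?_⟩
      push_cast
      field_simp
    rw [Finset.sum_congr rfl fun j _ => by rw [h2, one_pow], Finset.sum_const, Finset.card_range, nsmul_eq_mul,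
      mul_one]
    push_cast
    rfl
  · have h2 : cexp (π * t / q * I) ≠ 1 := by
      intro h3
      apply h
      rw [Complex.exp_eq_one_iff] at h3
      obtain ⟨n, hn⟩ := h3
      refine ⟨n, ?_⟩
      have h4 : (t : ℂ) = 2 * q * n := by
        have hpi : (π : ℂ) ≠ 0 := by exact_mod_cast Real.pi_ne_zero
        have hI : I ≠ 0 := I_ne_zero
        field_simp at hn
        linear_combination hn
      exact_mod_cast h4
    have h3 : cexp (π * t / q * I) ^ (2 * q) = 1 := by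
      rw [← Complex.exp_nat_mul, Complex.exp_eq_one_iff]
      refine ⟨t, ?_⟩
      push_cast
      field_simp
    have h4 := geom_sum_mul (cexp (π * t / q * I)) (2 * q)
    rw [h3, sub_self] at h4
    exact (mul_eq_zero.1 h4).resolve_right (sub_ne_zero.2 h2)

theorem kernel_eq {r : ℕ} {j : ℕ} (hj : j < 2 * (2 * r + 1)) :
    cexp (-(π * j * r / ((2 * r + 1 : ℕ) : ℂ) * I)) *
      ∑ x ∈ range (2 * r + 1), cexp (π * j * x / ((2 * r + 1 : ℕ) : ℂ) * I) = (HH (2 * r + 1) j : ℂ) := by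
  have hq : ((2 * r + 1 : ℕ) : ℂ) ≠ 0 := by exact_mod_cast Nat.succ_ne_zero (2 * r)
  obtain ⟨q, hq'⟩ : ∃ q : ℕ, q = 2 * r + 1 := ⟨_, rfl⟩
  rw [← hq'] at hq hj ⊢
  unfold HH
  by_cases h0 : j = 0
  · rw [if_pos h0, h0]
    simp
  rw [if_neg h0]
  have hqR : (0 : ℝ) < q := by
    have : 0 < q := by omega
    exact_mod_cast this
  have hjR : (0 : ℝ) < j := by exact_mod_cast Nat.pos_of_ne_zero h0
  have hs : Real.sin (π * j / (2 * q)) ≠ 0 := by
    refine (Real.sin_pos_of_pos_of_lt_pi (by positivity) ?_).ne'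
    have h1 : (j : ℝ) < 2 * q := by exact_mod_cast hj
    rw [div_lt_iff₀ (by positivity)]
    exact mul_lt_mul_of_pos_left h1 Real.pi_pos
  have hsC : ((Real.sin (π * j / (2 * q)) : ℝ) : ℂ) ≠ 0 := by exact_mod_cast hs
  rw [ofReal_div, eq_div_iff hsC]
  obtain ⟨a, ha⟩ : ∃ a : ℂ, a = cexp (π * j / (2 * q) * I) := ⟨_, rfl⟩
  have ha0 : a ≠ 0 := by
    rw [ha]
    exact exp_ne_zero _
  have e1 : ∀ x : ℕ, cexp (π * j * x / q * I) = (a ^ 2) ^ x := by
    intro x
    rw [ha, ← Complex.exp_nat_mul, ← Complex.exp_nat_mul]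
    congr 1
    push_cast
    field_simp
  have e2 : cexp (-(π * j * r / q * I)) = (a ^ (2 * r))⁻¹ := by
    rw [ha, ← Complex.exp_nat_mul, ← Complex.exp_neg]
    congr 1
    push_cast
    field_simp
  have e3 : ((Real.sin (π * j / (2 * q)) : ℝ) : ℂ) = (a⁻¹ - a) * I / 2 := by
    rw [ofReal_sin, Complex.sin, ha, ← Complex.exp_neg]
    push_cast
    congr 3
    congr 1
    ring
  have e4 : ((Real.sin (π * j / 2) : ℝ) : ℂ) = ((a ^ q)⁻¹ - a ^ q) * I / 2 := by
    rw [ofReal_sin, Complex.sin, ha, ← Complex.exp_nat_mul, ← Complex.exp_neg]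
    have f1 : ((π * j / 2 : ℝ) : ℂ) * I = q * (π * j / (2 * q) * I) := by
      push_cast
      field_simp
    rw [neg_mul, f1]
  rw [Finset.sum_congr rfl fun x _ => e1 x, e2, e3, e4]
  have h5 := geom_sum_mul (a ^ 2) q
  have h6 : (a ^ 2) ^ q = a ^ q * a ^ q := by rw [← pow_mul, ← pow_add]; congr 1; ring
  rw [h6] at h5
  have h7 : a ^ q = a ^ (2 * r) * a := by rw [hq', pow_succ]
  have haq : a ^ q ≠ 0 := pow_ne_zero _ ha0
  have har : a ^ (2 * r) ≠ 0 := pow_ne_zero _ ha0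
  obtain ⟨G, hG⟩ : ∃ G : ℂ, G = ∑ i ∈ range q, (a ^ 2) ^ i := ⟨_, rfl⟩
  rw [← hG] at h5 ⊢
  have h8 : (a ^ (2 * r))⁻¹ * a⁻¹ = (a ^ q)⁻¹ := by rw [h7, mul_inv]
  have h9 : (a ^ (2 * r))⁻¹ * G * ((a⁻¹ - a) * I / 2) = -((a ^ (2 * r))⁻¹ * a⁻¹) * (G * (a ^ 2 - 1)) * I / 2 := by
    field_simp
    ring
  rw [h9, h8, h5]
  field_simp
  ring

theorem card_mod {N q : ℕ} (hq : 0 < q) (c : ℕ) :
    (((univ.filter fun v : Fin N → Fin q => (∑ i, (v i : ℕ)) % (2 * q) = c % (2 * q)).card : ℕ) : ℂ) * (2 * q) =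
      ∑ j ∈ range (2 * q), cexp (-(π * j * c / q * I)) * (∑ x ∈ range q, cexp (π * j * x / q * I)) ^ N := by
  classical
  have h1 : ∀ j : ℕ, (∑ x ∈ range q, cexp (π * j * x / q * I)) ^ N =
      ∑ v : Fin N → Fin q, cexp (π * j * ((∑ i, (v i : ℕ) : ℕ) : ℂ) / q * I) := by
    intro j
    rw [Finset.sum_range, Fintype.sum_pow]
    refine Finset.sum_congr rfl fun v _ => ?_
    rw [← Complex.exp_sum]
    congr 1
    push_cast
    rw [Finset.mul_sum, Finset.sum_div, Finset.sum_mul]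
  have h2 : ∀ v : Fin N → Fin q, ∑ j ∈ range (2 * q),
      cexp (-(π * j * c / q * I)) * cexp (π * j * ((∑ i, (v i : ℕ) : ℕ) : ℂ) / q * I) =
      if (∑ i, (v i : ℕ)) % (2 * q) = c % (2 * q) then (2 * q : ℂ) else 0 := by
    intro v
    have h3 := exp_sum_dvd hq (((∑ i, (v i : ℕ) : ℕ) : ℤ) - c)
    have h4 : (2 * q : ℤ) ∣ ((∑ i, (v i : ℕ) : ℕ) : ℤ) - c ↔ (∑ i, (v i : ℕ)) % (2 * q) = c % (2 * q) := by
      have h5 := (Nat.modEq_iff_dvd (n := 2 * q) (a := c) (b := ∑ i, (v i : ℕ)))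
      push_cast at h5 ⊢
      rw [← h5]
      exact ⟨fun h => h.symm, fun h => h.symm⟩
    rw [if_congr h4 rfl rfl] at h3
    rw [← h3]
    refine Finset.sum_congr rfl fun j _ => ?_
    rw [← Complex.exp_add]
    congr 1
    push_cast
    ring
  rw [Finset.sum_congr rfl fun j _ => by rw [h1 j, Finset.mul_sum], Finset.sum_comm,
    Finset.sum_congr rfl fun v _ => h2 v, ← Finset.sum_filter, Finset.sum_const, nsmul_eq_mul]

/-- the count of the central classes -/
theorem cls_card {N r : ℕ} : ((cls N (2 * r + 1) (N * r)).card : ℝ) * (2 * (2 * r + 1 : ℕ)) =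
    ∑ j ∈ range (2 * (2 * r + 1)), (1 + Real.cos (π * j / (2 * r + 1 : ℕ))) * HH (2 * r + 1) j ^ N := by
  classical
  obtain ⟨q, hq'⟩ : ∃ q : ℕ, q = 2 * r + 1 := ⟨_, rfl⟩
  have hq : 0 < q := by omega
  have hqC : (q : ℂ) ≠ 0 := by exact_mod_cast hq.ne'
  have key : ((cls N q (N * r)).card : ℂ) * (2 * q) =
      ∑ j ∈ range (2 * q), (1 + cexp (-(π * j / q * I))) * (HH q j : ℂ) ^ N := by
    have h1 : ∀ j ∈ range (2 * q), cexp (-(π * j * ((N * r : ℕ) : ℂ) / q * I)) *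
        (∑ x ∈ range q, cexp (π * j * x / q * I)) ^ N = (HH q j : ℂ) ^ N := by
      intro j hj
      have h2 := kernel_eq (r := r) (j := j) (by rw [← hq']; exact Finset.mem_range.1 hj)
      rw [← hq'] at h2
      rw [← h2, mul_pow, ← Complex.exp_nat_mul]
      congr 2
      push_cast
      ring
    have h2 : ∀ j ∈ range (2 * q), cexp (-(π * j * ((N * r + 1 : ℕ) : ℂ) / q * I)) *
        (∑ x ∈ range q, cexp (π * j * x / q * I)) ^ N = cexp (-(π * j / q * I)) * (HH q j : ℂ) ^ N := by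
      intro j hj
      rw [← h1 j hj, ← mul_assoc, ← Complex.exp_add]
      congr 2
      push_cast
      ring
    have h3 := card_mod (N := N) hq (N * r)
    have h4 := card_mod (N := N) hq (N * r + 1)
    rw [Finset.sum_congr rfl h1] at h3
    rw [Finset.sum_congr rfl h2] at h4
    have h5 : (cls N q (N * r)).card =
        (univ.filter fun v : Fin N → Fin q => (∑ i, (v i : ℕ)) % (2 * q) = (N * r) % (2 * q)).card +
        (univ.filter fun v : Fin N → Fin q => (∑ i, (v i : ℕ)) % (2 * q) = (N * r + 1) % (2 * q)).card := by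
      rw [cls, Finset.filter_or, Finset.card_union_of_disjoint]
      rw [Finset.disjoint_filter]
      intro v _ h6 h7
      have h8 : (N * r) % (2 * q) = (N * r + 1) % (2 * q) := h6.symm.trans h7
      have h9 : (N * r) % 2 = (N * r + 1) % 2 := Nat.ModEq.of_dvd (Dvd.intro q rfl) h8
      omega
    rw [h5, Nat.cast_add, add_mul, h3, h4, ← Finset.sum_add_distrib]
    refine Finset.sum_congr rfl fun j _ => ?_
    ring
  rw [← hq']
  have h6 := congrArg Complex.re key
  have h7 : (((cls N q (N * r)).card : ℂ) * (2 * q)).re = ((cls N q (N * r)).card : ℝ) * (2 * q) := by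
    have : ((cls N q (N * r)).card : ℂ) * (2 * q) = ((((cls N q (N * r)).card : ℝ) * (2 * q) : ℝ) : ℂ) := by
      push_cast
      rfl
    rw [this, ofReal_re]
  rw [h7, Complex.re_sum] at h6
  rw [h6]
  refine Finset.sum_congr rfl fun j _ => ?_
  have h8 : cexp (-(π * j / q * I)) = cexp (((-(π * j / q) : ℝ) : ℂ) * I) := by
    congr 1
    push_cast
    ring
  have h9 : (HH q j : ℂ) ^ N = ((HH q j ^ N : ℝ) : ℂ) := by push_cast; rfl
  rw [h8, h9, re_mul_ofReal, add_re, one_re, exp_ofReal_mul_I_re, Real.cos_neg]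

end Pool.Agent.Lib.MP_1bbd88_ag
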