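import Pool.Agent.Lib.MP_1bbd88_ag.SI.B

/-! The limit of the normalised count. -/

set_option autoImplicit false

namespace Pool.Agent.Lib.MP_1bbd88_ag

open Finset Filter Topology
open scoped Real

/-- the terms of the symmetric sum -/
noncomputable def FF (N q j : ℕ) : ℝ := (1 + Real.cos (π * j / q)) * HH q j ^ N

theorem FF_zero (N : ℕ) (q : ℕ) : FF N q 0 = 2 * (q : ℝ) ^ N := by
  unfold FF HH
  rw [if_pos rfl, Nat.cast_zero, mul_zero, zero_div, Real.cos_zero]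
  ring

theorem FF_q (N : ℕ) {q : ℕ} (hq : 0 < q) : FF N q q = 0 := by
  unfold FF
  have hq0 : (q : ℝ) ≠ 0 := by exact_mod_cast hq.ne'
  rw [mul_div_assoc, div_self hq0, mul_one, Real.cos_pi, add_neg_cancel, zero_mul]

theorem FF_symm (N r i : ℕ) (hi : i < 2 * r) :
    FF N (2 * r + 1) (2 * r + 1 + (i + 1)) = FF N (2 * r + 1) (2 * r - 1 - i + 1) := by
  obtain ⟨q, hq'⟩ : ∃ q : ℕ, q = 2 * r + 1 := ⟨_, rfl⟩
  obtain ⟨j, hj⟩ : ∃ j : ℕ, j = 2 * r - 1 - i + 1 := ⟨_, rfl⟩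
  have h1 : (q : ℝ) + (i + 1) = 2 * q - j := by
    have h2 : q + (i + 1) + j = 2 * q := by omega
    have h3 : ((q + (i + 1) + j : ℕ) : ℝ) = ((2 * q : ℕ) : ℝ) := by rw [h2]
    push_cast at h3
    linarith
  have hq0 : (q : ℝ) ≠ 0 := by
    have : q ≠ 0 := by omega
    exact_mod_cast this
  rw [← hq', ← hj]
  unfold FF HH
  rw [if_neg (by omega), if_neg (by omega)]
  push_cast
  rw [h1]
  have e1 : Real.cos (π * (2 * q - j) / q) = Real.cos (π * j / q) := by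
    have : π * (2 * q - j) / q = 2 * π - π * j / q := by
      field_simp
    rw [this, Real.cos_two_pi_sub]
  have e2 : Real.sin (π * (2 * q - j) / (2 * q)) = Real.sin (π * j / (2 * q)) := by
    have : π * (2 * q - j) / (2 * q) = π - π * j / (2 * q) := by
      field_simp
    rw [this, Real.sin_pi_sub]
  have e3 : Real.sin (π * (2 * q - j) / 2) = Real.sin (π * j / 2) := by
    have : π * (2 * q - j) / 2 = (π - π * j / 2) + r * (2 * π) := by
      rw [hq']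
      push_cast
      ring
    rw [this, Real.sin_add_nat_mul_two_pi, Real.sin_pi_sub]
  rw [e1, e2, e3]

theorem cls_card2 {N r : ℕ} : ((cls N (2 * r + 1) (N * r)).card : ℝ) * (2 * r + 1 : ℕ) =
    ((2 * r + 1 : ℕ) : ℝ) ^ N + ∑ i ∈ range (2 * r), FF N (2 * r + 1) (i + 1) := by
  have h1 := cls_card (N := N) (r := r)
  have h2 : ∑ j ∈ range (2 * (2 * r + 1)), (1 + Real.cos (π * j / (2 * r + 1 : ℕ))) * HH (2 * r + 1) j ^ N =
      ∑ j ∈ range (2 * r + 1 + (2 * r + 1)), FF N (2 * r + 1) j := by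
    rw [two_mul (2 * r + 1)]
    rfl
  rw [h2, Finset.sum_range_add, Finset.sum_range_succ', FF_zero, Finset.sum_range_succ', Nat.add_zero,
    FF_q N (Nat.succ_pos _), add_zero] at h1
  have h3 : ∑ i ∈ range (2 * r), FF N (2 * r + 1) (2 * r + 1 + (i + 1)) =
      ∑ i ∈ range (2 * r), FF N (2 * r + 1) (i + 1) := by
    rw [Finset.sum_congr rfl fun i hi => FF_symm N r i (Finset.mem_range.1 hi)]
    exact Finset.sum_range_reflect (fun i => FF N (2 * r + 1) (i + 1)) (2 * r)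
  rw [h3] at h1
  linarith

/-- the limit of the terms -/
noncomputable def gl (N i : ℕ) : ℝ := 2 * (Real.sin (π * ((i : ℝ) + 1) / 2) / (π * ((i : ℝ) + 1) / 2)) ^ N

/-- the normalised terms -/
noncomputable def tm (N r i : ℕ) : ℝ :=
  if i < 2 * r then FF N (2 * r + 1) (i + 1) / ((2 * r + 1 : ℕ) : ℝ) ^ N else 0

theorem tm_sum {n r : ℕ} : ((cls (n + 1) (2 * r + 1) ((n + 1) * r)).card : ℝ) / ((2 * r + 1 : ℕ) : ℝ) ^ n =
    1 + ∑' i, tm (n + 1) r i := by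
  have hq : (0 : ℝ) < ((2 * r + 1 : ℕ) : ℝ) := by exact_mod_cast Nat.succ_pos _
  have h1 : ∑' i, tm (n + 1) r i = ∑ i ∈ range (2 * r), tm (n + 1) r i := by
    refine tsum_eq_sum fun i hi => ?_
    rw [Finset.mem_range] at hi
    unfold tm
    rw [if_neg hi]
  have h2 : ∑ i ∈ range (2 * r), tm (n + 1) r i =
      (∑ i ∈ range (2 * r), FF (n + 1) (2 * r + 1) (i + 1)) / ((2 * r + 1 : ℕ) : ℝ) ^ (n + 1) := by
    rw [Finset.sum_div]
    refine Finset.sum_congr rfl fun i hi => ?_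
    unfold tm
    rw [if_pos (Finset.mem_range.1 hi)]
  rw [h1, h2]
  have h3 := cls_card2 (N := n + 1) (r := r)
  obtain ⟨Q, hQ⟩ : ∃ Q : ℝ, Q = ((2 * r + 1 : ℕ) : ℝ) := ⟨_, rfl⟩
  rw [← hQ] at h3 hq ⊢
  rw [div_eq_iff (by positivity)]
  have h4 : (∑ i ∈ range (2 * r), FF (n + 1) (2 * r + 1) (i + 1)) =
      ((cls (n + 1) (2 * r + 1) ((n + 1) * r)).card : ℝ) * Q - Q ^ (n + 1) := by linarith
  rw [h4]
  field_simp
  ring

theorem HH_le {q j : ℕ} (hj : 0 < j) (hjq : j ≤ q) : |HH q j / q| ≤ 1 / j := by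
  have hjR : (0 : ℝ) < j := by exact_mod_cast hj
  have hqR : (0 : ℝ) < q := by exact_mod_cast lt_of_lt_of_le hj hjq
  have hjq' : (j : ℝ) ≤ q := by exact_mod_cast hjq
  have hpi := Real.pi_pos
  unfold HH
  rw [if_neg hj.ne', abs_div, abs_div, abs_of_pos hqR, div_div]
  have h1 := Real.mul_le_sin (x := π * j / (2 * q)) (by positivity) (by
    rw [div_le_div_iff₀ (by positivity) (by norm_num)]
    nlinarith)
  have h2 : 2 / π * (π * j / (2 * q)) = j / q := by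
    field_simp
  rw [h2] at h1
  have h3 : (0 : ℝ) < j / q := by positivity
  have h4 : |Real.sin (π * j / (2 * q))| = Real.sin (π * j / (2 * q)) := abs_of_pos (lt_of_lt_of_le h3 h1)
  rw [h4]
  have h5 : (j : ℝ) ≤ Real.sin (π * j / (2 * q)) * q := by
    rwa [div_le_iff₀ hqR] at h1
  exact div_le_div₀ zero_le_one (Real.abs_sin_le_one _) hjR h5

theorem tm_bound {n : ℕ} (hn : 1 ≤ n) (r i : ℕ) : ‖tm (n + 1) r i‖ ≤ 2 * (1 / ((i : ℝ) + 1) ^ 2) := by
  unfold tm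
  split_ifs with h
  · have h1 := HH_le (q := 2 * r + 1) (j := i + 1) (Nat.succ_pos i) (by omega)
    unfold FF
    rw [mul_div_assoc, ← div_pow, norm_mul, norm_pow, Real.norm_eq_abs, Real.norm_eq_abs]
    have h2 : |1 + Real.cos (π * ((i + 1 : ℕ) : ℝ) / ((2 * r + 1 : ℕ) : ℝ))| ≤ 2 := by
      rw [abs_le]
      have h3 := Real.neg_one_le_cos (π * ((i + 1 : ℕ) : ℝ) / ((2 * r + 1 : ℕ) : ℝ))
      have h4 := Real.cos_le_one (π * ((i + 1 : ℕ) : ℝ) / ((2 * r + 1 : ℕ) : ℝ))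
      constructor <;> linarith
    have h5 : |HH (2 * r + 1) (i + 1) / ((2 * r + 1 : ℕ) : ℝ)| ^ (n + 1) ≤ 1 / ((i : ℝ) + 1) ^ 2 := by
      push_cast at h1 ⊢
      have h6 : (0 : ℝ) < (i : ℝ) + 1 := by positivity
      have h7 : 1 / ((i : ℝ) + 1) ≤ 1 := by
        rw [div_le_one h6]
        have : (0 : ℝ) ≤ i := Nat.cast_nonneg i
        linarith
      calc |HH (2 * r + 1) (i + 1) / (2 * r + 1)| ^ (n + 1) ≤ (1 / ((i : ℝ) + 1)) ^ (n + 1) :=
            pow_le_pow_left₀ (abs_nonneg _) h1 _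
        _ ≤ (1 / ((i : ℝ) + 1)) ^ 2 := pow_le_pow_of_le_one (by positivity) h7 (by omega)
        _ = 1 / ((i : ℝ) + 1) ^ 2 := by rw [div_pow, one_pow]
    exact mul_le_mul h2 h5 (by positivity) (by norm_num)
  · rw [norm_zero]
    positivity

theorem tm_tendsto (N i : ℕ) : Tendsto (fun r => tm N r i) atTop (𝓝 (gl N i)) := by
  have hpi := Real.pi_pos
  have hj : (0 : ℝ) < (i : ℝ) + 1 := by positivity
  have hQ : Tendsto (fun r : ℕ => (((2 * r + 1 : ℕ) : ℝ))⁻¹) atTop (𝓝 0) := by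
    refine tendsto_inv_atTop_zero.comp ?_
    refine tendsto_natCast_atTop_atTop.comp ?_
    exact tendsto_atTop_mono (fun r => by change r ≤ 2 * r + 1; omega) tendsto_id
  have h1 : Tendsto (fun r : ℕ => 1 + Real.cos (π * ((i : ℝ) + 1) * (((2 * r + 1 : ℕ) : ℝ))⁻¹)) atTop
      (𝓝 (1 + Real.cos (π * ((i : ℝ) + 1) * 0))) :=
    ((Real.continuous_cos.tendsto _).comp (hQ.const_mul _)).const_add 1
  have h2 : Tendsto (fun r : ℕ => Real.sinc (π * ((i : ℝ) + 1) / 2 * (((2 * r + 1 : ℕ) : ℝ))⁻¹)) atTop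
      (𝓝 (Real.sinc (π * ((i : ℝ) + 1) / 2 * 0))) :=
    (Real.continuous_sinc.tendsto _).comp (hQ.const_mul _)
  rw [mul_zero, Real.cos_zero] at h1
  rw [mul_zero, Real.sinc_zero] at h2
  have h3 : Tendsto (fun r : ℕ => (1 + Real.cos (π * ((i : ℝ) + 1) * (((2 * r + 1 : ℕ) : ℝ))⁻¹)) *
      (Real.sin (π * ((i : ℝ) + 1) / 2) / (π * ((i : ℝ) + 1) / 2 *
        Real.sinc (π * ((i : ℝ) + 1) / 2 * (((2 * r + 1 : ℕ) : ℝ))⁻¹))) ^ N) atTop
      (𝓝 ((1 + 1) * (Real.sin (π * ((i : ℝ) + 1) / 2) / (π * ((i : ℝ) + 1) / 2 * 1)) ^ N)) := by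
    refine h1.mul (Tendsto.pow (Tendsto.div tendsto_const_nhds (h2.const_mul _) ?_) N)
    rw [mul_one]
    positivity
  have h4 : (1 + 1) * (Real.sin (π * ((i : ℝ) + 1) / 2) / (π * ((i : ℝ) + 1) / 2 * 1)) ^ N = gl N i := by
    unfold gl
    rw [mul_one]
    norm_num
  rw [h4] at h3
  refine h3.congr' ?_
  filter_upwards [eventually_gt_atTop i] with r hr
  unfold tm
  rw [if_pos (by omega)]
  unfold FF HH
  rw [if_neg (Nat.succ_ne_zero i)]
  have hkey : ∀ a b c : ℝ, a * b ^ N / c ^ N = a * (b / c) ^ N := by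
    intro a b c
    rw [div_pow]
    ring
  rw [hkey]
  obtain ⟨Q, hQdef⟩ : ∃ Q : ℝ, Q = ((2 * r + 1 : ℕ) : ℝ) := ⟨_, rfl⟩
  have hQ0 : 0 < Q := by
    rw [hQdef]
    exact_mod_cast Nat.succ_pos _
  rw [← hQdef]
  push_cast
  have hx : π * ((i : ℝ) + 1) / 2 * Q⁻¹ ≠ 0 := by positivity
  rw [Real.sinc_of_ne_zero hx]
  have e1 : π * ((i : ℝ) + 1) * Q⁻¹ = π * ((i : ℝ) + 1) / Q := by rw [div_eq_mul_inv]
  have e2 : π * ((i : ℝ) + 1) / 2 * Q⁻¹ = π * ((i : ℝ) + 1) / (2 * Q) := by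
    field_simp
  rw [e1, e2]
  congr 2
  rw [div_div]
  congr 1
  field_simp

theorem gl_summable {n : ℕ} (hn : 1 ≤ n) : Summable (gl (n + 1)) := by
  have hs : Summable fun i : ℕ => 2 * (1 / ((i : ℝ) + 1) ^ 2) := by
    refine Summable.mul_left _ ?_
    have h := (summable_nat_add_iff 1).mpr (Real.summable_one_div_nat_pow.mpr (by norm_num : 1 < 2))
    refine h.congr fun n => ?_
    push_cast
    rfl
  refine Summable.of_norm_bounded hs fun i => ?_
  exact le_of_tendsto (tm_tendsto (n + 1) i).norm (Eventually.of_forall fun r => tm_bound hn r i)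

theorem cls_tendsto {n : ℕ} (hn : 1 ≤ n) :
    Tendsto (fun r : ℕ => ((cls (n + 1) (2 * r + 1) ((n + 1) * r)).card : ℝ) / ((2 * r + 1 : ℕ) : ℝ) ^ n) atTop
      (𝓝 (1 + ∑' i, gl (n + 1) i)) := by
  have hs : Summable fun i : ℕ => 2 * (1 / ((i : ℝ) + 1) ^ 2) := by
    refine Summable.mul_left _ ?_
    have h := (summable_nat_add_iff 1).mpr (Real.summable_one_div_nat_pow.mpr (by norm_num : 1 < 2))
    refine h.congr fun n => ?_
    push_cast
    rfl
  have h1 := tendsto_tsum_of_dominated_convergence hs (tm_tendsto (n + 1))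
    (Eventually.of_forall fun r i => tm_bound hn r i)
  exact (h1.const_add 1).congr fun r => tm_sum.symm

end Pool.Agent.Lib.MP_1bbd88_ag
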