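import Pool.Agent.Lib.MP_1bbd88_ag.SI.C

/-! The coefficients of sec x + tan x. -/

set_option autoImplicit false

namespace Pool.Agent.Lib.MP_1bbd88_ag

open Finset Filter Topology
open scoped Real

noncomputable def bb (n : ℕ) : ℝ := 2 / (π * (4 * n + 1))
noncomputable def cn (n : ℕ) : ℝ := -2 / (π * (4 * n + 3))

theorem bb_abs (n : ℕ) : |bb n| ≤ 2 / π * (1 / ((n : ℝ) + 1)) := by
  have hpi := Real.pi_pos
  have hn : (0 : ℝ) ≤ n := Nat.cast_nonneg n
  unfold bb
  rw [abs_of_pos (by positivity), div_mul_div_comm, mul_one]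
  refine div_le_div_of_nonneg_left (by norm_num) (by positivity) ?_
  exact mul_le_mul_of_nonneg_left (by linarith) hpi.le

theorem cn_abs (n : ℕ) : |cn n| ≤ 2 / π * (1 / ((n : ℝ) + 1)) := by
  have hpi := Real.pi_pos
  have hn : (0 : ℝ) ≤ n := Nat.cast_nonneg n
  unfold cn
  rw [neg_div, abs_neg, abs_of_pos (by positivity), div_mul_div_comm, mul_one]
  refine div_le_div_of_nonneg_left (by norm_num) (by positivity) ?_
  exact mul_le_mul_of_nonneg_left (by linarith) hpi.le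

theorem gl_sum {N : ℕ} (hN : 2 ≤ N) : ∑' i, gl N i = ∑' n, 2 * (bb n ^ N + cn n ^ N) := by
  obtain ⟨n0, rfl⟩ : ∃ n0, N = n0 + 1 := ⟨N - 1, by omega⟩
  have hs := gl_summable (n := n0) (by omega)
  have hpi := Real.pi_pos
  rw [Nat.sumByResidueClasses hs 4]
  have e0 : ∀ m : ℕ, gl (n0 + 1) (0 + 4 * m) = 2 * bb m ^ (n0 + 1) := by
    intro m
    unfold gl bb
    have h1 : Real.sin (π * (((0 + 4 * m : ℕ) : ℝ) + 1) / 2) = 1 := by
      have : π * (((0 + 4 * m : ℕ) : ℝ) + 1) / 2 = π / 2 + m * (2 * π) := by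
        push_cast
        ring
      rw [this, Real.sin_add_nat_mul_two_pi, Real.sin_pi_div_two]
    rw [h1]
    congr 2
    push_cast
    field_simp
    ring
  have e1 : ∀ m : ℕ, gl (n0 + 1) (1 + 4 * m) = 0 := by
    intro m
    unfold gl
    have h1 : Real.sin (π * (((1 + 4 * m : ℕ) : ℝ) + 1) / 2) = 0 := by
      have : π * (((1 + 4 * m : ℕ) : ℝ) + 1) / 2 = π + m * (2 * π) := by
        push_cast
        ring
      rw [this, Real.sin_add_nat_mul_two_pi, Real.sin_pi]
    rw [h1, zero_div, zero_pow (Nat.succ_ne_zero n0), mul_zero]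
  have e2 : ∀ m : ℕ, gl (n0 + 1) (2 + 4 * m) = 2 * cn m ^ (n0 + 1) := by
    intro m
    unfold gl cn
    have h1 : Real.sin (π * (((2 + 4 * m : ℕ) : ℝ) + 1) / 2) = -1 := by
      have : π * (((2 + 4 * m : ℕ) : ℝ) + 1) / 2 = (π / 2 + π) + m * (2 * π) := by
        push_cast
        ring
      rw [this, Real.sin_add_nat_mul_two_pi, Real.sin_add_pi, Real.sin_pi_div_two]
    rw [h1]
    congr 2
    push_cast
    field_simp
    ring
  have e3 : ∀ m : ℕ, gl (n0 + 1) (3 + 4 * m) = 0 := by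
    intro m
    unfold gl
    have h1 : Real.sin (π * (((3 + 4 * m : ℕ) : ℝ) + 1) / 2) = 0 := by
      have : π * (((3 + 4 * m : ℕ) : ℝ) + 1) / 2 = 0 + ((m + 1 : ℕ) : ℝ) * (2 * π) := by
        push_cast
        ring
      rw [this, Real.sin_add_nat_mul_two_pi, Real.sin_zero]
    rw [h1, zero_div, zero_pow (Nat.succ_ne_zero n0), mul_zero]
  have s0 : Summable fun m : ℕ => gl (n0 + 1) (0 + 4 * m) :=
    hs.comp_injective (i := fun m : ℕ => 0 + 4 * m) fun a b h => by
      have : 0 + 4 * a = 0 + 4 * b := h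
      omega
  have s2 : Summable fun m : ℕ => gl (n0 + 1) (2 + 4 * m) :=
    hs.comp_injective (i := fun m : ℕ => 2 + 4 * m) fun a b h => by
      have : 2 + 4 * a = 2 + 4 * b := h
      omega
  have hsum : ∑ j : ZMod 4, ∑' m : ℕ, gl (n0 + 1) (j.val + 4 * m) =
      ∑' m : ℕ, gl (n0 + 1) (0 + 4 * m) + ∑' m : ℕ, gl (n0 + 1) (1 + 4 * m) +
        ∑' m : ℕ, gl (n0 + 1) (2 + 4 * m) + ∑' m : ℕ, gl (n0 + 1) (3 + 4 * m) :=
    Fin.sum_univ_four (fun j : Fin 4 => ∑' m : ℕ, gl (n0 + 1) (j.val + 4 * m))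
  rw [hsum, tsum_congr e1, tsum_congr e3, tsum_zero, add_zero, add_zero, ← s0.tsum_add s2]
  refine tsum_congr fun m => ?_
  rw [e0, e2, mul_add]

theorem cot_real {z : ℝ} (h0 : 0 < z) (h1 : z < 1) :
    Tendsto (fun M : ℕ => ∑ n ∈ range M, (1 / (z + n) + 1 / (z - (n + 1)))) atTop
      (𝓝 (π * (Real.cos (π * z) / Real.sin (π * z)))) := by
  have hz : (z : ℂ) ∈ Complex.integerComplement := by
    rw [Complex.mem_integerComplement_iff]
    rintro ⟨n, hn⟩
    have h2 : (n : ℝ) = z := by exact_mod_cast hn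
    rw [← h2] at h0 h1
    have h3 : 0 < n := by exact_mod_cast h0
    have h4 : n < 1 := by exact_mod_cast h1
    omega
  have h2 := tendsto_logDeriv_euler_cot_sub hz
  have h3 : Tendsto (fun M : ℕ => ∑ j ∈ range M, (1 / (z - (j + 1)) + 1 / (z + (j + 1)))) atTop
      (𝓝 (π * (Real.cos (π * z) / Real.sin (π * z)) - 1 / z)) := by
    have h4 := (Complex.continuous_re.tendsto _).comp h2
    have h5 : (π * Complex.cot (π * z) - 1 / z : ℂ) =
        ((π * (Real.cos (π * z) / Real.sin (π * z)) - 1 / z : ℝ) : ℂ) := by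
      rw [Complex.cot]
      push_cast
      rfl
    rw [h5, Complex.ofReal_re] at h4
    refine h4.congr fun M => ?_
    have h6 : ∑ j ∈ range M, cotTerm (z : ℂ) j =
        ((∑ j ∈ range M, (1 / (z - (j + 1)) + 1 / (z + (j + 1))) : ℝ) : ℂ) := by
      push_cast
      rfl
    rw [Function.comp_apply, h6, Complex.ofReal_re]
  have h7 : ∀ M : ℕ, ∑ n ∈ range M, (1 / (z + n) + 1 / (z - (n + 1))) =
      1 / z + ∑ j ∈ range M, (1 / (z - (j + 1)) + 1 / (z + (j + 1))) - 1 / (z + M) := by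
    intro M
    induction M with
    | zero =>
      rw [Finset.sum_range_zero, Finset.sum_range_zero, Nat.cast_zero, add_zero, add_zero, sub_self]
    | succ M ih =>
      rw [Finset.sum_range_succ, ih, Finset.sum_range_succ]
      push_cast
      ring
  have h8 : Tendsto (fun M : ℕ => 1 / (z + (M : ℝ))) atTop (𝓝 0) := by
    have h9 : Tendsto (fun M : ℕ => z + (M : ℝ)) atTop atTop :=
      tendsto_atTop_add_const_left _ _ tendsto_natCast_atTop_atTop
    simp only [one_div]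
    exact tendsto_inv_atTop_zero.comp h9
  have h10 := (h3.const_add (1 / z)).sub h8
  rw [sub_zero, add_sub_cancel] at h10
  exact h10.congr fun M => (h7 M).symm

theorem sec_tan {x : ℝ} (hx : |x| < π / 2) :
    Real.cos (π / 4 - x / 2) / Real.sin (π / 4 - x / 2) = 1 / Real.cos x + Real.tan x := by
  obtain ⟨h1, h2⟩ := abs_lt.1 hx
  have hc : 0 < Real.cos x := Real.cos_pos_of_mem_Ioo ⟨h1, h2⟩
  have hs : 0 < Real.sin (π / 4 - x / 2) := Real.sin_pos_of_pos_of_lt_pi (by linarith) (by linarith)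
  rw [Real.tan_eq_sin_div_cos, ← add_div, div_eq_div_iff hs.ne' hc.ne']
  have e1 : Real.cos x = 2 * Real.sin (π / 4 - x / 2) * Real.cos (π / 4 - x / 2) := by
    rw [← Real.sin_two_mul, ← Real.sin_pi_div_two_sub]
    congr 1
    ring
  have e2 : 1 + Real.sin x = 2 * Real.cos (π / 4 - x / 2) ^ 2 := by
    have h3 := Real.cos_sq (π / 4 - x / 2)
    have h4 : Real.cos (2 * (π / 4 - x / 2)) = Real.sin x := by
      rw [← Real.cos_pi_div_two_sub]
      congr 1
      ring
    rw [h4] at h3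
    linarith
  rw [e1, e2]
  ring

theorem geo_one {b x : ℝ} (h : |b * x| < 1) :
    HasSum (fun d : ℕ => b ^ (d + 2) * x ^ (d + 1)) (b / (1 - b * x) - b) := by
  have h1 := (hasSum_geometric_of_abs_lt_one h).mul_left (b * (b * x))
  have h2 : 1 - b * x ≠ 0 := by
    have := (abs_lt.1 h).2
    intro h3
    linarith
  have h3 : b * (b * x) * (1 - b * x)⁻¹ = b / (1 - b * x) - b := by
    field_simp
    ring
  rw [h3] at h1
  refine h1.congr_fun fun d => ?_
  rw [mul_pow]
  ring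

/-- partial sums -/
theorem part_tendsto {x : ℝ} (hx : |x| < π / 2) :
    Tendsto (fun M : ℕ => ∑ n ∈ range M, 2 * (bb n / (1 - bb n * x) + cn n / (1 - cn n * x))) atTop
      (𝓝 (1 / Real.cos x + Real.tan x)) := by
  have hpi := Real.pi_pos
  obtain ⟨h1, h2⟩ := abs_lt.1 hx
  have hz0 : 0 < 1 / 4 - x / (2 * π) := by
    rw [sub_pos, div_lt_div_iff₀ (by positivity) (by norm_num)]
    linarith
  have hz1 : 1 / 4 - x / (2 * π) < 1 := by
    have h3 : -(1 / 4) < x / (2 * π) := by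
      rw [lt_div_iff₀ (by positivity)]
      linarith
    linarith
  have h3 := (cot_real hz0 hz1).const_mul (1 / π)
  have h4 : 1 / π * (π * (Real.cos (π * (1 / 4 - x / (2 * π))) / Real.sin (π * (1 / 4 - x / (2 * π))))) =
      1 / Real.cos x + Real.tan x := by
    have h5 : π * (1 / 4 - x / (2 * π)) = π / 4 - x / 2 := by
      field_simp
    rw [h5, ← sec_tan hx]
    field_simp
  rw [h4] at h3
  refine h3.congr fun M => ?_
  rw [Finset.mul_sum]
  refine Finset.sum_congr rfl fun n _ => ?_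
  have hn : (0 : ℝ) ≤ n := Nat.cast_nonneg n
  have p1 : 0 < π * (4 * n + 1) - 2 * x := by nlinarith
  have p2 : 0 < π * (4 * n + 3) + 2 * x := by nlinarith
  have q1 : 0 < π * (4 * (n : ℝ) + 1) := by positivity
  have q2 : 0 < π * (4 * (n : ℝ) + 3) := by positivity
  have e1 : bb n / (1 - bb n * x) = 2 / (π * (4 * n + 1) - 2 * x) := by
    unfold bb
    have : 1 - 2 / (π * (4 * (n : ℝ) + 1)) * x = (π * (4 * n + 1) - 2 * x) / (π * (4 * n + 1)) := by
      field_simp
    rw [this]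
    field_simp
  have e2 : cn n / (1 - cn n * x) = -2 / (π * (4 * n + 3) + 2 * x) := by
    unfold cn
    have : 1 - -2 / (π * (4 * (n : ℝ) + 3)) * x = (π * (4 * n + 3) + 2 * x) / (π * (4 * n + 3)) := by
      field_simp
      ring
    rw [this]
    field_simp
  have e3 : 1 / (1 / 4 - x / (2 * π) + n) = 4 * π / (π * (4 * n + 1) - 2 * x) := by
    have : 1 / 4 - x / (2 * π) + n = (π * (4 * n + 1) - 2 * x) / (4 * π) := by
      field_simp
      ring
    rw [this, one_div_div]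
  have e4 : 1 / (1 / 4 - x / (2 * π) - (n + 1)) = -(4 * π) / (π * (4 * n + 3) + 2 * x) := by
    have : 1 / 4 - x / (2 * π) - (n + 1) = (π * (4 * n + 3) + 2 * x) / (-(4 * π)) := by
      field_simp
      ring
    rw [this, one_div_div]
  rw [e1, e2, e3, e4]
  field_simp
  ring

/-- the coefficients -/
noncomputable def mcoef (d : ℕ) : ℝ := if d = 0 then 1 else ∑' i, gl (d + 1) i

theorem inv_sq_summable : Summable fun i : ℕ => 1 / ((i : ℝ) + 1) ^ 2 := by
  have h := (summable_nat_add_iff 1).mpr (Real.summable_one_div_nat_pow.mpr (by norm_num : 1 < 2))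
  refine h.congr fun n => ?_
  push_cast
  rfl

theorem term_bound {b x : ℝ} {n : ℕ} (hb : |b| ≤ 2 / π * (1 / ((n : ℝ) + 1))) (d : ℕ) :
    |b ^ (d + 2) * x ^ (d + 1)| ≤ ((2 / π) ^ 2 * |x| * (1 / ((n : ℝ) + 1) ^ 2)) * (2 / π * |x|) ^ d := by
  have hpi := Real.pi_pos
  have hn : (0 : ℝ) ≤ n := Nat.cast_nonneg n
  have h1 : |b| ≤ 2 / π := by
    refine hb.trans ?_
    refine mul_le_of_le_one_right (by positivity) ?_
    rw [div_le_one (by positivity)]
    linarith
  have h2 : |b| ^ 2 ≤ (2 / π * (1 / ((n : ℝ) + 1))) ^ 2 := pow_le_pow_left₀ (abs_nonneg _) hb 2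
  have h3 : |b| ^ d ≤ (2 / π) ^ d := pow_le_pow_left₀ (abs_nonneg _) h1 d
  have h4 : |b ^ (d + 2) * x ^ (d + 1)| = |b| ^ 2 * |b| ^ d * (|x| * |x| ^ d) := by
    rw [abs_mul, abs_pow, abs_pow]
    ring
  have h5 : ((2 / π) ^ 2 * |x| * (1 / ((n : ℝ) + 1) ^ 2)) * (2 / π * |x|) ^ d =
      (2 / π * (1 / ((n : ℝ) + 1))) ^ 2 * (2 / π) ^ d * (|x| * |x| ^ d) := by
    rw [mul_pow, mul_pow, one_div_pow]
    ring
  rw [h4, h5]
  exact mul_le_mul_of_nonneg_right (mul_le_mul h2 h3 (by positivity) (by positivity)) (by positivity)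

theorem hasSum_sec_tan {x : ℝ} (hx : |x| < π / 2) :
    HasSum (fun d : ℕ => mcoef d * x ^ d) (1 / Real.cos x + Real.tan x) := by
  have hpi := Real.pi_pos
  have hy : 2 / π * |x| < 1 := by
    rw [div_mul_eq_mul_div, div_lt_one hpi]
    linarith
  have hy0 : 0 ≤ 2 / π * |x| := by positivity
  -- the double series
  let F : ℕ × ℕ → ℝ := fun w => 2 * (bb w.1 ^ (w.2 + 2) * x ^ (w.2 + 1) + cn w.1 ^ (w.2 + 2) * x ^ (w.2 + 1))
  have hG : Summable fun w : ℕ × ℕ => (4 * ((2 / π) ^ 2 * |x|) * (1 / ((w.1 : ℝ) + 1) ^ 2)) * (2 / π * |x|) ^ w.2 := by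
    refine Summable.mul_of_nonneg (inv_sq_summable.mul_left _) (summable_geometric_of_lt_one hy0 hy) ?_ ?_
    · intro n
      change 0 ≤ 4 * ((2 / π) ^ 2 * |x|) * (1 / ((n : ℝ) + 1) ^ 2)
      positivity
    · intro d
      change 0 ≤ (2 / π * |x|) ^ d
      positivity
  have hF : Summable F := by
    refine Summable.of_norm_bounded hG fun w => ?_
    have h1 := term_bound (x := x) (bb_abs w.1) w.2
    have h2 := term_bound (x := x) (cn_abs w.1) w.2
    have h3 : ‖F w‖ ≤ 2 * (|bb w.1 ^ (w.2 + 2) * x ^ (w.2 + 1)| + |cn w.1 ^ (w.2 + 2) * x ^ (w.2 + 1)|) := by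
      change |2 * (bb w.1 ^ (w.2 + 2) * x ^ (w.2 + 1) + cn w.1 ^ (w.2 + 2) * x ^ (w.2 + 1))| ≤ _
      rw [abs_mul, abs_two]
      exact mul_le_mul_of_nonneg_left (abs_add_le _ _) (by norm_num)
    refine h3.trans ?_
    have h4 : (4 * ((2 / π) ^ 2 * |x|) * (1 / ((w.1 : ℝ) + 1) ^ 2)) * (2 / π * |x|) ^ w.2 =
        4 * (((2 / π) ^ 2 * |x| * (1 / ((w.1 : ℝ) + 1) ^ 2)) * (2 / π * |x|) ^ w.2) := by ring
    rw [h4]
    linarith
  -- rows
  have hb1 : ∀ n : ℕ, |bb n * x| < 1 := by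
    intro n
    rw [abs_mul]
    refine lt_of_le_of_lt (mul_le_mul_of_nonneg_right (bb_abs n) (abs_nonneg x)) ?_
    have hn : (0 : ℝ) ≤ n := Nat.cast_nonneg n
    have h1 : 1 / ((n : ℝ) + 1) ≤ 1 := by
      rw [div_le_one (by positivity)]
      linarith
    have h2 : 2 / π * (1 / ((n : ℝ) + 1)) * |x| = (1 / ((n : ℝ) + 1)) * (2 / π * |x|) := by ring
    rw [h2]
    exact lt_of_le_of_lt (mul_le_of_le_one_left hy0 h1) hy
  have hc1 : ∀ n : ℕ, |cn n * x| < 1 := by
    intro n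
    rw [abs_mul]
    refine lt_of_le_of_lt (mul_le_mul_of_nonneg_right (cn_abs n) (abs_nonneg x)) ?_
    have hn : (0 : ℝ) ≤ n := Nat.cast_nonneg n
    have h1 : 1 / ((n : ℝ) + 1) ≤ 1 := by
      rw [div_le_one (by positivity)]
      linarith
    have h2 : 2 / π * (1 / ((n : ℝ) + 1)) * |x| = (1 / ((n : ℝ) + 1)) * (2 / π * |x|) := by ring
    rw [h2]
    exact lt_of_le_of_lt (mul_le_of_le_one_left hy0 h1) hy
  obtain ⟨t, ht⟩ : ∃ t : ℕ → ℝ, t = fun n => 2 * ((bb n / (1 - bb n * x) - bb n) + (cn n / (1 - cn n * x) - cn n)) :=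
    ⟨_, rfl⟩
  have hrow : ∀ n : ℕ, HasSum (fun d : ℕ => F (n, d)) (t n) := by
    intro n
    rw [ht]
    exact ((geo_one (hb1 n)).add (geo_one (hc1 n))).mul_left 2
  have hS := hF.hasSum
  have h1 : HasSum t (∑' w, F w) := hS.prod_fiberwise hrow
  -- the value
  have hval : ∑' w, F w = 1 / Real.cos x + Real.tan x - 1 := by
    have h2 := part_tendsto hx
    have h3 := part_tendsto (x := 0) (by rw [abs_zero]; positivity)
    rw [Real.cos_zero, Real.tan_zero, div_one, add_zero] at h3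
    have h4 := h2.sub h3
    refine tendsto_nhds_unique h1.tendsto_sum_nat (h4.congr fun M => ?_)
    rw [← Finset.sum_sub_distrib]
    refine Finset.sum_congr rfl fun n _ => ?_
    rw [ht]
    simp only [mul_zero, sub_zero, div_one]
    ring
  -- columns
  have hcol : HasSum (fun d : ℕ => mcoef (d + 1) * x ^ (d + 1)) (∑' w, F w) := by
    have h5 : HasSum (fun w : ℕ × ℕ => F w.swap) (∑' w, F w) := (Equiv.prodComm ℕ ℕ).hasSum_iff.2 hS
    refine h5.prod_fiberwise fun d => ?_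
    have h6 : Summable fun n : ℕ => F (n, d) := hF.comp_injective (i := fun n : ℕ => (n, d)) fun a b h => by
      exact (Prod.mk.inj h).1
    have h7 : mcoef (d + 1) * x ^ (d + 1) = ∑' n : ℕ, F (n, d) := by
      unfold mcoef
      rw [if_neg (Nat.succ_ne_zero d), gl_sum (by omega), ← tsum_mul_right]
      refine tsum_congr fun n => ?_
      change 2 * (bb n ^ (d + 2) + cn n ^ (d + 2)) * x ^ (d + 1) =
        2 * (bb n ^ (d + 2) * x ^ (d + 1) + cn n ^ (d + 2) * x ^ (d + 1))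
      ring
    rw [h7]
    exact h6.hasSum
  rw [hval] at hcol
  have h8 := HasSum.zero_add (f := fun d : ℕ => mcoef d * x ^ d) hcol
  have h9 : mcoef 0 * x ^ 0 + (1 / Real.cos x + Real.tan x - 1) = 1 / Real.cos x + Real.tan x := by
    unfold mcoef
    rw [if_pos rfl, pow_zero]
    ring
  rw [h9] at h8
  exact h8

/-- the coefficients are determined by the expansion -/
theorem coef_unique {m m' : ℕ → ℝ}
    (h : ∀ x : ℝ, |x| < π / 2 → HasSum (fun d : ℕ => m d * x ^ d) (1 / Real.cos x + Real.tan x))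
    (h' : ∀ x : ℝ, |x| < π / 2 → HasSum (fun d : ℕ => m' d * x ^ d) (1 / Real.cos x + Real.tan x)) : m = m' := by
  have hpi := Real.pi_pos
  have key : ∀ a : ℕ → ℝ, (∀ x : ℝ, |x| < π / 2 → HasSum (fun d : ℕ => a d * x ^ d) (1 / Real.cos x + Real.tan x)) →
      HasFPowerSeriesAt (fun x : ℝ => 1 / Real.cos x + Real.tan x)
        (fun d => ContinuousMultilinearMap.mkPiRing ℝ (Fin d) (a d)) 0 := by
    intro a ha
    rw [hasFPowerSeriesAt_iff]
    have h1 : ∀ᶠ z : ℝ in 𝓝 0, |z| < π / 2 := by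
      have h2 : Metric.ball (0 : ℝ) (π / 2) ∈ 𝓝 (0 : ℝ) := Metric.ball_mem_nhds _ (by positivity)
      filter_upwards [h2] with z hz
      rwa [Metric.mem_ball, dist_zero_right, Real.norm_eq_abs] at hz
    filter_upwards [h1] with z hz
    rw [zero_add]
    refine (ha z hz).congr_fun fun d => ?_
    rw [smul_eq_mul, mul_comm]
    congr 1
    simp [FormalMultilinearSeries.coeff]
  have h1 := (key m h).eq_formalMultilinearSeries (key m' h')
  funext d
  have h2 := congrFun h1 d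
  have h3 := congrArg (fun f => f fun _ => (1 : ℝ)) h2
  simpa using h3

end Pool.Agent.Lib.MP_1bbd88_ag
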