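import Pool.Agent.Lib.MP_1bbd88_ag.SI.A

/-! The colengths of `(f) + (X_i ^ q)` for the quadric: the normalised sequence is nondecreasing. -/

set_option autoImplicit false

namespace Pool.Agent.Lib.MP_1bbd88_ag

open Module

section

variable {k : Type*} [Field k] {N : ℕ}

/-- the quadric -/
noncomputable def quad (k : Type*) [Field k] (N : ℕ) : MvPowerSeries (Fin N) k := ∑ i, MvPowerSeries.X i ^ 2

theorem Hom.add {d : ℕ} {f g : MvPowerSeries (Fin N) k} (hf : Hom d f) (hg : Hom d g) : Hom d (f + g) := by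
  intro α hα
  rw [map_add] at hα
  by_cases h : MvPowerSeries.coeff α f = 0
  · rw [h, zero_add] at hα
    exact hg α hα
  · exact hf α h

theorem Hom.sum {ι : Type*} {d : ℕ} (s : Finset ι) (f : ι → MvPowerSeries (Fin N) k) (hf : ∀ i ∈ s, Hom d (f i)) :
    Hom d (∑ i ∈ s, f i) := by
  classical
  induction s using Finset.induction_on with
  | empty =>
    intro α hα
    rw [Finset.sum_empty, map_zero] at hα
    exact absurd rfl hα
  | insert a s ha ih =>
    rw [Finset.sum_insert ha]
    exact (hf a (Finset.mem_insert_self a s)).add (ih fun i hi => hf i (Finset.mem_insert_of_mem hi))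

theorem X_hom (i : Fin N) : Hom 1 (MvPowerSeries.X i : MvPowerSeries (Fin N) k) := by
  classical
  intro α hα
  rw [MvPowerSeries.coeff_X] at hα
  have : α = Finsupp.single i 1 := by
    by_contra h
    exact hα (if_neg h)
  rw [this]
  simp

theorem quad_hom : Hom 2 (quad k N) := by
  refine Hom.sum _ _ fun i _ => ?_
  exact (X_hom i).pow 2

theorem quad_const : MvPowerSeries.constantCoeff (quad k N) = 0 := by
  rw [quad, map_sum]
  refine Finset.sum_eq_zero fun i _ => ?_
  rw [map_pow, MvPowerSeries.constantCoeff_X]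
  exact zero_pow (by norm_num)

/-- length of a power -/
theorem finrank_pow_le {R : Type*} [CommRing R] [Algebra k R] [FiniteDimensional k R] (f : R) (n : ℕ) :
    finrank k (R ⧸ Ideal.span {f ^ n}) ≤ n * finrank k (R ⧸ Ideal.span {f}) := by
  induction n with
  | zero =>
    rw [pow_zero, Ideal.span_singleton_one, Nat.zero_mul]
    have : Subsingleton (R ⧸ (⊤ : Ideal R)) := Ideal.Quotient.subsingleton_iff.2 rfl
    rw [finrank_zero_of_subsingleton]
  | succ n ih =>
    -- the kernel of R/(f^(n+1)) -> R/(f^n) is the image of R/(f) by multiplication with f^n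
    have hle : Ideal.span {f ^ (n + 1)} ≤ Ideal.span {f ^ n} := by
      rw [Ideal.span_singleton_le_span_singleton]
      exact pow_dvd_pow f (Nat.le_succ n)
    let π : (R ⧸ Ideal.span {f ^ (n + 1)}) →ₗ[k] (R ⧸ Ideal.span {f ^ n}) :=
      (Ideal.Quotient.factorₐ k hle).toLinearMap
    have hπ : Function.Surjective π := Ideal.Quotient.factor_surjective hle
    have h1 := LinearMap.finrank_range_add_finrank_ker π
    rw [LinearMap.range_eq_top.2 hπ, finrank_top] at h1
    let μ : R →ₗ[k] (R ⧸ Ideal.span {f ^ (n + 1)}) :=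
      (Ideal.Quotient.mkₐ k (Ideal.span {f ^ (n + 1)})).toLinearMap ∘ₗ (LinearMap.mulLeft k (f ^ n))
    have hμ : ∀ x, μ x = Ideal.Quotient.mk (Ideal.span {f ^ (n + 1)}) (f ^ n * x) := fun x => rfl
    have h2 : LinearMap.ker π ≤ LinearMap.range μ := by
      intro y hy
      obtain ⟨x, rfl⟩ := Ideal.Quotient.mk_surjective y
      have h3 : Ideal.Quotient.mk (Ideal.span {f ^ n}) x = 0 := hy
      rw [Ideal.Quotient.eq_zero_iff_mem] at h3
      obtain ⟨z, hz⟩ := Ideal.mem_span_singleton'.1 h3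
      refine ⟨z, ?_⟩
      rw [hμ, ← hz, mul_comm]
    have h3 : (Ideal.span {f}).restrictScalars k ≤ LinearMap.ker μ := by
      intro x hx
      obtain ⟨z, hz⟩ := Ideal.mem_span_singleton'.1 hx
      rw [LinearMap.mem_ker, hμ, Ideal.Quotient.eq_zero_iff_mem, ← hz]
      refine Ideal.mem_span_singleton'.2 ⟨z, ?_⟩
      ring
    have h4 : finrank k (LinearMap.ker π) ≤ finrank k (LinearMap.range μ) := Submodule.finrank_mono h2
    have h5 : finrank k (LinearMap.range μ) ≤ finrank k (R ⧸ Ideal.span {f}) := by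
      have h6 := LinearMap.finrank_range_add_finrank_ker μ
      have h7 : finrank k ((Ideal.span {f}).restrictScalars k) ≤ finrank k (LinearMap.ker μ) :=
        Submodule.finrank_mono h3
      have h8 := Submodule.finrank_quotient_add_finrank ((Ideal.span {f}).restrictScalars k)
      have h9 : finrank k (R ⧸ (Ideal.span {f}).restrictScalars k) = finrank k (R ⧸ Ideal.span {f}) :=
        (Submodule.Quotient.restrictScalarsEquiv k (Ideal.span {f})).finrank_eq
      omega
    rw [Nat.succ_mul]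
    omega

/-- the section of a power series: coefficients at `p β + γ` -/
noncomputable def sec (p : ℕ) (γ : Fin N → ℕ) : MvPowerSeries (Fin N) k →ₗ[k] MvPowerSeries (Fin N) k where
  toFun g := fun β => MvPowerSeries.coeff (Finsupp.equivFunOnFinite.symm fun i => p * β i + γ i) g
  map_add' f g := by
    funext β
    exact map_add _ _ _
  map_smul' c f := by
    funext β
    exact MvPowerSeries.coeff_smul _ _ _

theorem coeff_sec (p : ℕ) (γ : Fin N → ℕ) (g : MvPowerSeries (Fin N) k) (β : Fin N →₀ ℕ) :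
    MvPowerSeries.coeff β (sec p γ g) =
      MvPowerSeries.coeff (Finsupp.equivFunOnFinite.symm fun i => p * β i + γ i) g := rfl

theorem coeff_X_pow_mul' (i : Fin N) (m : ℕ) (g : MvPowerSeries (Fin N) k) (α : Fin N →₀ ℕ) :
    MvPowerSeries.coeff α (MvPowerSeries.X i ^ m * g) =
      if m ≤ α i then MvPowerSeries.coeff (α - Finsupp.single i m) g else 0 := by
  classical
  rw [MvPowerSeries.X_pow_eq, MvPowerSeries.coeff_monomial_mul]
  rw [one_mul]
  congr 1
  rw [Finsupp.single_le_iff]

theorem sec_X_pow {p : ℕ} (hp : 0 < p) {γ : Fin N → ℕ} (hγ : ∀ i, γ i < p) (i : Fin N) (m : ℕ)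
    (g : MvPowerSeries (Fin N) k) :
    sec p γ (MvPowerSeries.X i ^ (p * m) * g) = MvPowerSeries.X i ^ m * sec p γ g := by
  classical
  ext β
  rw [coeff_sec, coeff_X_pow_mul', coeff_X_pow_mul', coeff_sec]
  have h1 : (Finsupp.equivFunOnFinite.symm fun i => p * β i + γ i) i = p * β i + γ i := rfl
  rw [h1]
  have h2 : p * m ≤ p * β i + γ i ↔ m ≤ β i := by
    constructor
    · intro h
      have h3 := hγ i
      by_contra h4
      have h5 : β i + 1 ≤ m := by omega
      have h6 : p * (β i + 1) ≤ p * m := Nat.mul_le_mul_left p h5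
      rw [Nat.mul_add] at h6
      omega
    · intro h
      have := Nat.mul_le_mul_left p h
      omega
  by_cases h : m ≤ β i
  · rw [if_pos (h2.2 h), if_pos h]
    refine congrArg (fun α => MvPowerSeries.coeff α g) ?_
    ext l
    have e1 : ((Finsupp.equivFunOnFinite.symm fun i => p * β i + γ i) - Finsupp.single i (p * m)) l =
        p * β l + γ l - Finsupp.single i (p * m) l := rfl
    have e2 : (Finsupp.equivFunOnFinite.symm fun l => p * ((β - Finsupp.single i m : Fin N →₀ ℕ) l) + γ l) l =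
        p * (β l - Finsupp.single i m l) + γ l := rfl
    rw [e1, e2]
    by_cases hl : i = l
    · subst hl
      rw [Finsupp.single_eq_same, Finsupp.single_eq_same, Nat.mul_sub]
      have := Nat.mul_le_mul_left p h
      omega
    · rw [Finsupp.single_eq_of_ne (fun h => hl h.symm), Finsupp.single_eq_of_ne (fun h => hl h.symm)]
      rfl
  · rw [if_neg (fun h3 => h (h2.1 h3)), if_neg h]

theorem sec_psI {p q : ℕ} (hp : 0 < p) {γ : Fin N → ℕ} (hγ : ∀ i, γ i < p) {g : MvPowerSeries (Fin N) k}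
    (hg : g ∈ psI (Fin N) k (p * q)) : sec p γ g ∈ psI (Fin N) k q := by
  rw [mem_psI_iff] at hg ⊢
  intro β hβ
  rw [coeff_sec]
  refine hg _ fun i => ?_
  have h1 := hβ i
  have h2 := hγ i
  change p * β i + γ i < p * q
  have h3 : p * (β i + 1) ≤ p * q := Nat.mul_le_mul_left p h1
  rw [Nat.mul_add] at h3
  omega

theorem quad_pow_char {p : ℕ} [Fact p.Prime] [CharP k p] :
    (quad k N) ^ p = ∑ i, (MvPowerSeries.X i : MvPowerSeries (Fin N) k) ^ (p * 2) := by
  have : CharP (MvPowerSeries (Fin N) k) p := charP_of_injective_algebraMap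
    (FaithfulSMul.algebraMap_injective k (MvPowerSeries (Fin N) k)) p
  rw [quad, sum_pow_char]
  refine Finset.sum_congr rfl fun i _ => ?_
  rw [← pow_mul, mul_comm]

theorem sec_quad {p : ℕ} [Fact p.Prime] [CharP k p] {γ : Fin N → ℕ} (hγ : ∀ i, γ i < p)
    (g : MvPowerSeries (Fin N) k) : sec p γ (quad k N ^ p * g) = quad k N * sec p γ g := by
  have hp : 0 < p := (Fact.out : p.Prime).pos
  rw [quad_pow_char, Finset.sum_mul, map_sum, quad, Finset.sum_mul]
  exact Finset.sum_congr rfl fun i _ => sec_X_pow hp hγ i 2 g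

/-- the colength for the quadric -/
noncomputable def qlen (k : Type*) [Field k] (N q : ℕ) : ℕ :=
  finrank k (MvPowerSeries (Fin N) k ⧸ (Ideal.span {quad k N} ⊔ psI (Fin N) k q))

theorem frob_le {p : ℕ} [Fact p.Prime] [CharP k p] (q : ℕ) : p ^ N * qlen k N q ≤
    finrank k (MvPowerSeries (Fin N) k ⧸ (Ideal.span {quad k N ^ p} ⊔ psI (Fin N) k (p * q))) := by
  classical
  have hp : 0 < p := (Fact.out : p.Prime).pos
  obtain ⟨J, hJ⟩ : ∃ J : Ideal (MvPowerSeries (Fin N) k), J = Ideal.span {quad k N} ⊔ psI (Fin N) k q := ⟨_, rfl⟩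
  obtain ⟨J', hJ'⟩ : ∃ J' : Ideal (MvPowerSeries (Fin N) k), J' = Ideal.span {quad k N ^ p} ⊔ psI (Fin N) k (p * q) :=
    ⟨_, rfl⟩
  have hfin : FiniteDimensional k (MvPowerSeries (Fin N) k ⧸ J) := by
    have hle : psI (Fin N) k q ≤ J := by
      rw [hJ]
      exact le_sup_right
    exact Module.Finite.of_surjective (Ideal.Quotient.factorₐ k hle).toLinearMap (Ideal.Quotient.factor_surjective hle)
  have hfin' : FiniteDimensional k (MvPowerSeries (Fin N) k ⧸ J') := by
    have hle : psI (Fin N) k (p * q) ≤ J' := by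
      rw [hJ']
      exact le_sup_right
    exact Module.Finite.of_surjective (Ideal.Quotient.factorₐ k hle).toLinearMap (Ideal.Quotient.factor_surjective hle)
  let Θ : MvPowerSeries (Fin N) k →ₗ[k] ((Fin N → Fin p) → MvPowerSeries (Fin N) k ⧸ J) :=
    LinearMap.pi fun γ => (Ideal.Quotient.mkₐ k J).toLinearMap ∘ₗ sec p fun i => (γ i : ℕ)
  have hΘ : ∀ g γ, Θ g γ = Ideal.Quotient.mk J (sec p (fun i => (γ i : ℕ)) g) := fun g γ => rfl
  have hsurj : Function.Surjective Θ := by
    intro u
    choose w hw using fun γ => Ideal.Quotient.mk_surjective (u γ)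
    refine ⟨fun α => MvPowerSeries.coeff (Finsupp.equivFunOnFinite.symm fun i => α i / p)
      (w fun i => ⟨α i % p, Nat.mod_lt _ hp⟩), ?_⟩
    funext γ
    rw [hΘ, ← hw γ]
    congr 1
    ext β
    rw [coeff_sec]
    change MvPowerSeries.coeff (Finsupp.equivFunOnFinite.symm fun i => (p * β i + (γ i : ℕ)) / p)
      (w fun i => ⟨(p * β i + (γ i : ℕ)) % p, Nat.mod_lt _ hp⟩) = _
    have e1 : (fun i => (p * β i + (γ i : ℕ)) / p) = fun i => β i := by
      funext i
      rw [Nat.mul_add_div hp, Nat.div_eq_of_lt (γ i).2, Nat.add_zero]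
    have e2 : (fun i => (⟨(p * β i + (γ i : ℕ)) % p, Nat.mod_lt _ hp⟩ : Fin p)) = γ := by
      funext i
      refine Fin.ext ?_
      change (p * β i + (γ i : ℕ)) % p = γ i
      rw [Nat.mul_add_mod, Nat.mod_eq_of_lt (γ i).2]
    have e3 : (Finsupp.equivFunOnFinite.symm fun i => β i) = β := by
      ext i
      rfl
    rw [e1, e2, e3]
  have hker : J'.restrictScalars k ≤ LinearMap.ker Θ := by
    intro g hg
    have hg' : g ∈ Ideal.span {quad k N ^ p} ⊔ psI (Fin N) k (p * q) := by
      rw [← hJ']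
      exact hg
    obtain ⟨y, hy, z, hz, rfl⟩ := Submodule.mem_sup.1 hg'
    obtain ⟨a, rfl⟩ := Ideal.mem_span_singleton'.1 hy
    rw [LinearMap.mem_ker]
    funext γ
    have hγ : ∀ i, (γ i : ℕ) < p := fun i => (γ i).2
    rw [hΘ, Pi.zero_apply, Ideal.Quotient.eq_zero_iff_mem, map_add, mul_comm, sec_quad hγ, hJ]
    exact Ideal.add_mem _ (Ideal.mem_sup_left (Ideal.mul_mem_right _ _ (Ideal.mem_span_singleton_self _)))
      (Ideal.mem_sup_right (sec_psI hp hγ hz))
  let Φ := (J'.restrictScalars k).liftQ Θ hker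
  have hΦ : Function.Surjective Φ := by
    intro u
    obtain ⟨g, rfl⟩ := hsurj u
    exact ⟨Submodule.Quotient.mk g, rfl⟩
  have e0 : finrank k (MvPowerSeries (Fin N) k ⧸ J'.restrictScalars k) = finrank k (MvPowerSeries (Fin N) k ⧸ J') :=
    (Submodule.Quotient.restrictScalarsEquiv k J').finrank_eq
  have hfin2 : FiniteDimensional k (MvPowerSeries (Fin N) k ⧸ J'.restrictScalars k) :=
    Module.Finite.equiv (Submodule.Quotient.restrictScalarsEquiv k J').symm
  have h1 := LinearMap.finrank_le_finrank_of_surjective hΦ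
  rw [e0, Module.finrank_pi_fintype, Finset.sum_const, Finset.card_univ, Fintype.card_fun, Fintype.card_fin,
    Fintype.card_fin, smul_eq_mul] at h1
  unfold qlen
  rw [← hJ, ← hJ']
  exact h1

/-- the normalised colengths are nondecreasing -/
theorem qlen_mono {p : ℕ} [Fact p.Prime] [CharP k p] {n : ℕ} (q : ℕ) :
    p ^ n * qlen k (n + 1) q ≤ qlen k (n + 1) (p * q) := by
  have hp : 0 < p := (Fact.out : p.Prime).pos
  have h1 := frob_le (k := k) (N := n + 1) (p := p) q
  obtain ⟨I, hI⟩ : ∃ I : Ideal (MvPowerSeries (Fin (n + 1)) k), I = psI (Fin (n + 1)) k (p * q) := ⟨_, rfl⟩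
  have hfin : FiniteDimensional k (MvPowerSeries (Fin (n + 1)) k ⧸ I) := by
    rw [hI]
    infer_instance
  have key : ∀ g : MvPowerSeries (Fin (n + 1)) k,
      finrank k (MvPowerSeries (Fin (n + 1)) k ⧸ (Ideal.span {g} ⊔ I)) =
      finrank k ((MvPowerSeries (Fin (n + 1)) k ⧸ I) ⧸ Ideal.span {Ideal.Quotient.mk I g}) := by
    intro g
    have h2 : Ideal.span {Ideal.Quotient.mk I g} = (Ideal.span {g}).map (Ideal.Quotient.mk I) := by
      rw [Ideal.map_span, Set.image_singleton]
    rw [h2, sup_comm]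
    exact ((DoubleQuot.quotQuotEquivQuotSupₐ k I (Ideal.span {g})).toLinearEquiv.finrank_eq).symm
  have h2 := finrank_pow_le (k := k) (Ideal.Quotient.mk I (quad k (n + 1))) p
  rw [← map_pow, ← key, ← key, hI] at h2
  have h3 : p ^ (n + 1) * qlen k (n + 1) q ≤ p * qlen k (n + 1) (p * q) := h1.trans h2
  rw [pow_succ', Nat.mul_assoc] at h3
  exact Nat.le_of_mul_le_mul_left h3 hp

end

end Pool.Agent.Lib.MP_1bbd88_ag
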